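import Pool.Agent.Y395.GX.Stm

/-! GX-CALC: the numerical estimate. -/

set_option autoImplicit false

open Filter Topology
open Pool.Agent.Y395.GX

namespace Pool.Agent.Y291.GX.CALC

/-- eventually `log k ≤ k ^ (1 / 24)` and `3 ≤ k ^ (1 / 24)` -/
theorem large : ∃ k₀ : ℕ, ∀ k : ℕ, k₀ ≤ k → Real.log (k : ℝ) ≤ (k : ℝ) ^ (1 / 24 : ℝ) ∧
    3 ≤ (k : ℝ) ^ (1 / 24 : ℝ) := by
  have h1 : ∀ᶠ x : ℝ in atTop, ‖Real.log x‖ ≤ 1 * ‖x ^ (1 / 24 : ℝ)‖ :=
    (isLittleO_log_rpow_atTop (by norm_num : (0 : ℝ) < 1 / 24)).def one_pos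
  have h2 : ∀ᶠ x : ℝ in atTop, 3 ≤ x ^ (1 / 24 : ℝ) :=
    (tendsto_rpow_atTop (by norm_num : (0 : ℝ) < 1 / 24)).eventually_ge_atTop 3
  have h3 : ∀ᶠ k : ℕ in atTop, Real.log (k : ℝ) ≤ (k : ℝ) ^ (1 / 24 : ℝ) ∧
      3 ≤ (k : ℝ) ^ (1 / 24 : ℝ) := by
    filter_upwards [tendsto_natCast_atTop_atTop.eventually h1,
      tendsto_natCast_atTop_atTop.eventually h2] with k hk1 hk2
    refine ⟨?_, hk2⟩
    rw [one_mul, Real.norm_eq_abs, Real.norm_eq_abs,
      abs_of_nonneg (a := (k : ℝ) ^ (1 / 24 : ℝ)) (by positivity)] at hk1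
    exact (le_abs_self _).trans hk1
  exact eventually_atTop.1 h3

theorem main : SCalc := by
  obtain ⟨k₀, hk₀⟩ := large
  refine ⟨k₀, fun k f hk hf hfk => ?_⟩
  obtain ⟨hL, hy⟩ := hk₀ k hk
  set y : ℝ := (k : ℝ) ^ (1 / 24 : ℝ) with hydef
  have hyk : y ^ 24 = (k : ℝ) := by
    rw [hydef, ← Real.rpow_natCast, ← Real.rpow_mul (Nat.cast_nonneg k)]
    norm_num
  have hy0 : 0 < y := by linarith
  have hfkR : (8 : ℝ) ^ f ≤ (k : ℝ) := by exact_mod_cast hfk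
  have hf1 : (1 : ℝ) ≤ (f : ℝ) := by exact_mod_cast hf
  have hk0 : (0 : ℝ) < (k : ℝ) := lt_of_lt_of_le (by positivity) hfkR
  -- `f ≤ y`
  have hfy : (f : ℝ) ≤ y := by
    refine le_trans ?_ hL
    rw [Real.le_log_iff_exp_le hk0]
    refine le_trans ?_ hfkR
    have h8 : Real.exp 1 ≤ 8 := by
      have := Real.exp_one_lt_d9
      linarith
    calc Real.exp (f : ℝ) = Real.exp 1 ^ f := by
          rw [← Real.exp_nat_mul, mul_one]
      _ ≤ 8 ^ f := pow_le_pow_left₀ (Real.exp_pos 1).le h8 f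
  -- `2 ^ f ≤ y ^ 8`
  have h2f : (2 : ℝ) ^ f ≤ y ^ 8 := by
    have h : ((2 : ℝ) ^ f) ^ 3 ≤ (y ^ 8) ^ 3 := by
      calc ((2 : ℝ) ^ f) ^ 3 = (8 : ℝ) ^ f := by
            rw [← pow_mul, mul_comm, pow_mul]; norm_num
        _ ≤ (k : ℝ) := hfkR
        _ = (y ^ 8) ^ 3 := by rw [← hyk]; ring
    exact le_of_pow_le_pow_left₀ (by norm_num) (by positivity) h
  -- the square root
  have hsq : √(k : ℝ) = y ^ 12 := by
    rw [← hyk, show y ^ 24 = (y ^ 12) ^ 2 by ring, Real.sqrt_sq (by positivity)]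
  -- the exponent
  have h2fk : 2 * f ≤ k := by
    refine le_trans ?_ hfk
    have h1 : f < 2 ^ f := Nat.lt_two_pow_self
    have h2 : 2 ^ f * 4 ^ f = 8 ^ f := by rw [← mul_pow]; norm_num
    have h3 : 4 ≤ 4 ^ f := by
      calc 4 = 4 ^ 1 := by norm_num
        _ ≤ 4 ^ f := Nat.pow_le_pow_right (by norm_num) hf
    nlinarith
  have hn : (k : ℝ) / 2 ≤ (((k - 1) / f : ℕ) : ℝ) * f := by
    have h1 : k - 1 < (k - 1) / f * f + f := Nat.lt_div_mul_add (by omega)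
    have h2 : k ≤ (k - 1) / f * f + f := by omega
    have h3 : (k : ℝ) ≤ (((k - 1) / f : ℕ) : ℝ) * f + f := by exact_mod_cast h2
    have h4 : 2 * (f : ℝ) ≤ k := by exact_mod_cast h2fk
    linarith
  set n : ℕ := (k - 1) / f with hndef
  have hn' : y ^ 23 / 2 ≤ (n : ℝ) := by
    have h1 : y ^ 24 / 2 ≤ (n : ℝ) * y := by
      rw [hyk]
      exact hn.trans (mul_le_mul_of_nonneg_left hfy (Nat.cast_nonneg n))
    have h2 : y ^ 23 / 2 * y ≤ (n : ℝ) * y := by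
      have : y ^ 23 / 2 * y = y ^ 24 / 2 := by ring
      rw [this]; exact h1
    exact le_of_mul_le_mul_right h2 hy0
  -- the base
  set x : ℝ := 1 / 2 * (1 - 1 / 2 : ℝ) ^ f with hxdef
  have hx : x = 1 / (2 * 2 ^ f) := by
    rw [hxdef, show (1 - 1 / 2 : ℝ) = 1 / 2 by norm_num, one_div_pow]
    field_simp
  have hx1 : 1 / (2 * y ^ 8) ≤ x := by
    rw [hx]
    exact one_div_le_one_div_of_le (by positivity) (by linarith)
  have hxle : x ≤ 1 := by
    rw [hx, div_le_one (by positivity)]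
    have : (1 : ℝ) ≤ 2 ^ f := one_le_pow₀ (by norm_num)
    linarith
  have hxn : y ^ 15 / 4 ≤ x * n := by
    calc y ^ 15 / 4 = 1 / (2 * y ^ 8) * (y ^ 23 / 2) := by
          field_simp
          ring
      _ ≤ x * n := mul_le_mul hx1 hn' (by positivity) (le_trans (by positivity) hx1)
  have hpow : (1 - x) ^ n ≤ Real.exp (-(x * n)) := by
    calc (1 - x) ^ n ≤ Real.exp (-x) ^ n :=
          pow_le_pow_left₀ (by linarith) (Real.one_sub_le_exp_neg x) n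
      _ = Real.exp (-(x * n)) := by
          rw [← Real.exp_nat_mul]; congr 1; ring
  have hff : (f : ℝ) ^ (f + 1) ≤ Real.exp (y * (y + 1)) := by
    have h1 : (f : ℝ) ≤ Real.exp f := by
      have := Real.add_one_le_exp (f : ℝ)
      linarith
    calc (f : ℝ) ^ (f + 1) ≤ Real.exp f ^ (f + 1) := pow_le_pow_left₀ (by linarith) h1 _
      _ = Real.exp (((f + 1 : ℕ) : ℝ) * f) := by rw [← Real.exp_nat_mul]
      _ ≤ Real.exp (y * (y + 1)) := by
          apply Real.exp_le_exp.2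
          push_cast
          rw [mul_comm]
          exact mul_le_mul hfy (by linarith) (by linarith) hy0.le
  have hfin : y * (y + 1) + -(x * n) ≤ -(y ^ 12) := by
    have h1 : y ^ 15 = y ^ 12 * y ^ 3 := by ring
    have h2 : (27 : ℝ) ≤ y ^ 3 := by
      calc (27 : ℝ) = 3 ^ 3 := by norm_num
        _ ≤ y ^ 3 := pow_le_pow_left₀ (by norm_num) hy 3
    have h3 : 27 * y ^ 12 ≤ y ^ 15 := by
      rw [h1, mul_comm]
      exact mul_le_mul_of_nonneg_left h2 (by positivity)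
    have h4 : y ^ 2 ≤ y ^ 12 := pow_le_pow_right₀ (by linarith) (by norm_num)
    have h5 : y ^ 1 ≤ y ^ 12 := pow_le_pow_right₀ (by linarith) (by norm_num)
    have h6 : 0 < y ^ 12 := by positivity
    nlinarith
  calc (f : ℝ) ^ f * (f * (1 - x) ^ n) = (f : ℝ) ^ (f + 1) * (1 - x) ^ n := by ring
    _ ≤ Real.exp (y * (y + 1)) * Real.exp (-(x * n)) :=
        mul_le_mul hff hpow (pow_nonneg (by linarith) n) (Real.exp_pos _).le
    _ = Real.exp (y * (y + 1) + -(x * n)) := (Real.exp_add _ _).symm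
    _ ≤ Real.exp (-√(k : ℝ)) := by
        rw [hsq]
        exact Real.exp_le_exp.2 hfin

end Pool.Agent.Y291.GX.CALC
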